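import Pool.Agent.Run7.h11.SC.Planar

set_option autoImplicit false

namespace Run7.h11.SC

open Run7.h242.SC
open scoped NNReal

theorem t_PC : S_PC := by
  refine ⟨9, fun K hK0 hK1 => ?_⟩
  set A : ℂ → ℝ := fun z => max 0 (min 1 (-2 * (z.re / ‖z‖))) with hA
  set B : ℝ → ℝ := fun r => max 0 (min 1 ((2 - r) * (4 / 3))) with hB
  have hA0 : ∀ z, 0 ≤ A z := fun z => le_max_left _ _
  have hA1 : ∀ z, A z ≤ 1 := fun z => max_le (by norm_num) (min_le_left _ _)
  have hB0 : ∀ r, 0 ≤ B r := fun r => le_max_left _ _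
  have hB1 : ∀ r, B r ≤ 1 := fun r => max_le (by norm_num) (min_le_left _ _)
  have hBanti : ∀ r r', r ≤ r' → B r' ≤ B r := by
    intro r r' h
    exact max_le_max le_rfl (min_le_min le_rfl (by linarith))
  have hBlip : ∀ r r', |B r - B r'| ≤ 4 / 3 * |r - r'| := by
    intro r r'
    refine (clamp_lip _ _ _ _).trans ?_
    have e : (2 - r) * (4 / 3) - (2 - r') * (4 / 3) = (4 / 3) * (r' - r) := by ring
    rw [e, abs_mul, abs_sub_comm r' r, abs_of_pos (by norm_num : (0 : ℝ) < 4 / 3)]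
  have hBhi : ∀ r, 2 ≤ r → B r = 0 := by
    intro r h
    rw [hB]
    simp only
    exact max_eq_left ((min_le_right _ _).trans (by nlinarith))
  have hBlo : ∀ r, r ≤ 5 / 4 → B r = 1 := by
    intro r h
    rw [hB]
    simp only
    rw [min_eq_left (by linarith)]
    norm_num
  have hBc : Continuous B := by
    rw [hB]
    fun_prop
  have hAt : ∀ (w : ℂ) (t : ℝ), 0 < t → A ((t : ℂ) * w) = A w := by
    intro w t ht
    rw [hA]
    simp only
    rw [norm_t_mul t ht.le, Complex.re_ofReal_mul, mul_div_mul_left _ _ ht.ne']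
  set G : ℂ → ℝ := fun z => 1 - (1 - K) * A z * B ‖z‖ with hG
  have hc : ∀ z, 0 ≤ (1 - K) * A z ∧ (1 - K) * A z ≤ 1 - K := by
    intro z
    have h1 := hA0 z
    have h2 := hA1 z
    constructor
    · exact mul_nonneg (by linarith) h1
    · nlinarith
  have hGK : ∀ z, K ≤ G z := by
    intro z
    obtain ⟨h1, h2⟩ := hc z
    have h3 := hB0 ‖z‖
    have h4 := hB1 ‖z‖
    rw [hG]
    simp only
    nlinarith
  refine ⟨fun z => (G z : ℂ) * z, ?_, ?_, ?_, ?_, ?_⟩
  · refine ray_bij G (fun z => lt_of_lt_of_le hK0 (hGK z)) ?_ ?_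
    · intro w hw t ht h
      rw [hG] at h
      simp only at h
      rw [norm_t_mul t ht.le, hAt w t ht] at h
      have hw0 : 0 < ‖w‖ := norm_pos_iff.2 hw
      obtain ⟨h1, h2⟩ := hc w
      set c := (1 - K) * A w with hcdef
      rcases lt_trichotomy t 1 with h3 | h3 | h3
      · exfalso
        have h4 : B ‖w‖ ≤ B (t * ‖w‖) := hBanti _ _ (by nlinarith)
        have h5 := hB1 ‖w‖
        have h6 : c * (B ‖w‖ - t * B (t * ‖w‖)) ≤ c * (1 - t) := by
          apply mul_le_mul_of_nonneg_left _ h1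
          nlinarith
        nlinarith
      · exact h3
      · exfalso
        have h4 : B (t * ‖w‖) ≤ B ‖w‖ := hBanti _ _ (by nlinarith)
        have h5 := hB1 (t * ‖w‖)
        have h6 : c * (t * B (t * ‖w‖) - B ‖w‖) ≤ c * (t - 1) := by
          apply mul_le_mul_of_nonneg_left _ h1
          nlinarith
        nlinarith
    · intro w hw
      set c := (1 - K) * A w with hcdef
      have hcont : ContinuousOn (fun t : ℝ => t * (1 - c * B (t * ‖w‖))) (Set.Icc 0 (1 / K)) := by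
        apply Continuous.continuousOn
        fun_prop
      have h1 := intermediate_value_Icc (show (0 : ℝ) ≤ 1 / K by positivity) hcont
      have h2 : (1 : ℝ) ∈ Set.Icc (0 * (1 - c * B (0 * ‖w‖)))
          (1 / K * (1 - c * B (1 / K * ‖w‖))) := by
        refine ⟨by norm_num, ?_⟩
        obtain ⟨h3, h4⟩ := hc w
        have h5 := hB0 (1 / K * ‖w‖)
        have h6 := hB1 (1 / K * ‖w‖)
        have h7 : K ≤ 1 - c * B (1 / K * ‖w‖) := by nlinarith
        calc (1 : ℝ) = 1 / K * K := by field_simp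
          _ ≤ 1 / K * (1 - c * B (1 / K * ‖w‖)) :=
              mul_le_mul_of_nonneg_left h7 (by positivity)
      obtain ⟨t, ht, ht2⟩ := h1 h2
      simp only at ht2
      have ht0 : 0 < t := by
        rcases ht.1.lt_or_eq with h3 | h3
        · exact h3
        · rw [← h3] at ht2
          norm_num at ht2
      refine ⟨t, ht0, ?_⟩
      rw [hG]
      simp only
      rw [norm_t_mul t ht0.le, hAt w t ht0]
      exact ht2
  · apply lip_of
    intro z w hwz
    have hzw := norm_nonneg (z - w)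
    have hd := abs_norm_sub_norm_le z w
    -- `N z = A z * z`
    have hN : ‖(A z : ℂ) * z - (A w : ℂ) * w‖ ≤ 5 * ‖z - w‖ := by
      have e : (A z : ℂ) * z - (A w : ℂ) * w = (A z : ℂ) * (z - w) + ((A z - A w : ℝ) : ℂ) * w := by
        push_cast
        ring
      rw [e]
      refine (norm_add_le _ _).trans ?_
      rw [norm_mul, norm_mul, Complex.norm_real, Complex.norm_real, Real.norm_eq_abs,
        Real.norm_eq_abs]
      have h1 : |A z| * ‖z - w‖ ≤ 1 * ‖z - w‖ := by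
        apply mul_le_mul_of_nonneg_right _ hzw
        rw [abs_of_nonneg (hA0 z)]
        exact hA1 z
      have h2 : |A z - A w| * ‖w‖ ≤ 4 * ‖z - w‖ := by
        by_cases hw : w = 0
        · rw [hw]
          simp
        · have hw0 : 0 < ‖w‖ := norm_pos_iff.2 hw
          have hz0 : 0 < ‖z‖ := lt_of_lt_of_le hw0 hwz
          have h3 : |A z - A w| ≤ 2 * |z.re / ‖z‖ - w.re / ‖w‖| := by
            refine (clamp_lip _ _ _ _).trans ?_
            have e2 : -2 * (z.re / ‖z‖) - -2 * (w.re / ‖w‖) =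
                -(2 * (z.re / ‖z‖ - w.re / ‖w‖)) := by ring
            rw [e2, abs_neg, abs_mul, abs_of_pos (by norm_num : (0 : ℝ) < 2)]
          have h4 : |z.re / ‖z‖ - w.re / ‖w‖| * ‖w‖ ≤ 2 * ‖z - w‖ := by
            rw [← abs_of_pos hw0, ← abs_mul, abs_of_pos hw0]
            have e3 : (z.re / ‖z‖ - w.re / ‖w‖) * ‖w‖ =
                (z.re - w.re) + z.re / ‖z‖ * (‖w‖ - ‖z‖) := by
              field_simp
              ring
            rw [e3]
            refine (abs_add_le _ _).trans ?_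
            have h5 : |z.re - w.re| ≤ ‖z - w‖ := by
              rw [← Complex.sub_re]
              exact Complex.abs_re_le_norm _
            have h6 : |z.re / ‖z‖ * (‖w‖ - ‖z‖)| ≤ 1 * ‖z - w‖ := by
              rw [abs_mul, abs_div, abs_of_pos hz0]
              apply mul_le_mul _ _ (abs_nonneg _) (by norm_num)
              · rw [div_le_one hz0]
                exact Complex.abs_re_le_norm _
              · rw [abs_sub_comm]
                exact hd
            linarith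
          calc |A z - A w| * ‖w‖ ≤ (2 * |z.re / ‖z‖ - w.re / ‖w‖|) * ‖w‖ :=
                mul_le_mul_of_nonneg_right h3 hw0.le
            _ ≤ 4 * ‖z - w‖ := by nlinarith
      linarith
    have e : (G z : ℂ) * z - (G w : ℂ) * w = (z - w) - ((1 - K : ℝ) : ℂ) *
        ((B ‖z‖ : ℂ) * ((A z : ℂ) * z - (A w : ℂ) * w) +
          ((B ‖z‖ - B ‖w‖ : ℝ) : ℂ) * ((A w : ℂ) * w)) := by
      rw [hG]
      push_cast
      ring
    rw [e]
    refine (norm_sub_le _ _).trans ?_
    rw [norm_mul, Complex.norm_real, Real.norm_eq_abs, abs_of_nonneg (by linarith : 0 ≤ 1 - K)]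
    have h1 : ‖(B ‖z‖ : ℂ) * ((A z : ℂ) * z - (A w : ℂ) * w) +
          ((B ‖z‖ - B ‖w‖ : ℝ) : ℂ) * ((A w : ℂ) * w)‖ ≤ 8 * ‖z - w‖ := by
      refine (norm_add_le _ _).trans ?_
      rw [norm_mul, norm_mul, Complex.norm_real, Complex.norm_real, Real.norm_eq_abs,
        Real.norm_eq_abs]
      have h2 : |B ‖z‖| * ‖(A z : ℂ) * z - (A w : ℂ) * w‖ ≤ 1 * (5 * ‖z - w‖) := by
        apply mul_le_mul _ hN (norm_nonneg _) (by norm_num)
        rw [abs_of_nonneg (hB0 _)]
        exact hB1 _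
      have h3 : ‖(A w : ℂ) * w‖ ≤ ‖w‖ := by
        rw [norm_mul, Complex.norm_real, Real.norm_eq_abs, abs_of_nonneg (hA0 w)]
        have := hA1 w
        have := norm_nonneg w
        nlinarith
      have h4 : |B ‖z‖ - B ‖w‖| * ‖(A w : ℂ) * w‖ ≤ 8 / 3 * ‖z - w‖ := by
        rcases le_total 2 ‖w‖ with h5 | h5
        · rw [hBhi _ h5, hBhi _ (h5.trans hwz)]
          simp
        · calc |B ‖z‖ - B ‖w‖| * ‖(A w : ℂ) * w‖ ≤ (4 / 3 * |‖z‖ - ‖w‖|) * 2 :=
                mul_le_mul (hBlip _ _) (h3.trans h5) (norm_nonneg _) (by positivity)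
            _ ≤ 8 / 3 * ‖z - w‖ := by linarith
      linarith
    have h5 : (1 - K) * ‖(B ‖z‖ : ℂ) * ((A z : ℂ) * z - (A w : ℂ) * w) +
          ((B ‖z‖ - B ‖w‖ : ℝ) : ℂ) * ((A w : ℂ) * w)‖ ≤ 1 * (8 * ‖z - w‖) :=
      mul_le_mul (by linarith) h1 (norm_nonneg _) (by norm_num)
    have h6 : ((9 : ℝ≥0) : ℝ) = 9 := rfl
    rw [h6]
    linarith
  · intro z hz
    rw [hG]
    simp only
    rw [hBhi _ hz, mul_zero, sub_zero, Complex.ofReal_one, one_mul]
  · intro z hz
    have : A z = 0 := by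
      rw [hA]
      simp only
      apply max_eq_left
      refine (min_le_right _ _).trans ?_
      have : 0 ≤ z.re / ‖z‖ := div_nonneg hz (norm_nonneg _)
      linarith
    rw [hG]
    simp only
    rw [this, mul_zero, zero_mul, sub_zero, Complex.ofReal_one, one_mul]
  · intro z hz
    have h1 : |(z + 1).re| ≤ 1 / 5 := (Complex.abs_re_le_norm _).trans hz
    rw [Complex.add_re, Complex.one_re, abs_le] at h1
    have h2 : ‖z‖ ≤ 6 / 5 := by
      have h3 : ‖z‖ ≤ ‖z + 1‖ + ‖(1 : ℂ)‖ := by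
        have := norm_sub_le (z + 1) 1
        rwa [add_sub_cancel_right] at this
      rw [norm_one] at h3
      linarith
    have h0 : 0 < ‖z‖ := by
      apply norm_pos_iff.2
      rintro rfl
      rw [Complex.zero_re] at h1
      linarith [h1.2]
    have h4 : A z = 1 := by
      rw [hA]
      simp only
      have : 1 ≤ -2 * (z.re / ‖z‖) := by
        have h5 : z.re / ‖z‖ ≤ -1 / 2 := by
          rw [div_le_iff₀ h0]
          linarith [h1.2]
        linarith
      rw [min_eq_left this]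
      norm_num
    rw [hG]
    simp only
    rw [h4, hBlo _ (by linarith)]
    push_cast
    ring

theorem t_PSI : S_PS → S_PC → S_PR → S_PSI := by
  rintro ⟨C1, hS⟩ ⟨C2, hC⟩ ⟨C3, hR⟩
  refine ⟨C3 * (C2 * C1), fun k hk => ?_⟩
  set K : ℝ := (1 / 2) ^ k with hK
  have hK0 : 0 < K := by positivity
  have hK1 : K ≤ 1 / 2 := by
    calc K = (1 / 2) ^ k := rfl
      _ ≤ (1 / 2) ^ 1 := pow_le_pow_of_le_one (by norm_num) (by norm_num) hk
      _ = 1 / 2 := by norm_num
  obtain ⟨s, sb, sl, s1, s2⟩ := hS K hK0 hK1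
  obtain ⟨c, cb, cl, c1, c2, c3⟩ := hC K hK0 hK1
  obtain ⟨r, rb, rl, r1, r2, r3⟩ := hR K hK0 hK1
  have hsq : ∀ ζ : ℂ, |ζ.re| ≤ 1 → |ζ.im| ≤ 1 → ‖ζ‖ ≤ 2 := by
    intro ζ h1 h2
    have := Complex.norm_le_abs_re_add_abs_im ζ
    linarith
  -- position of the doors
  have hdoor : ∀ (j : ℕ) (ζ : ℂ), |ζ.re| ≤ 1 → |ζ.im| ≤ 1 →
      15 / 16 * (1 / 2) ^ j ≤ ‖q j + (V j : ℂ) * ζ‖ ∧
      ‖q j + (V j : ℂ) * ζ‖ ≤ 17 / 16 * (1 / 2) ^ j ∧ 0 ≤ (q j + (V j : ℂ) * ζ).re := by
    intro j ζ h1 h2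
    have hj : (0 : ℝ) < (1 / 2) ^ j := by positivity
    have hV : V j = (1 / 2) ^ j / 32 := rfl
    have hq : ‖q j‖ = (1 / 2) ^ j := by
      unfold q
      rw [Complex.norm_real, Real.norm_eq_abs, abs_of_pos hj]
    have hVz : ‖(V j : ℂ) * ζ‖ ≤ (1 / 2) ^ j / 16 := by
      rw [norm_mul, Complex.norm_real, Real.norm_eq_abs, hV, abs_of_pos (by positivity)]
      have := hsq ζ h1 h2
      nlinarith
    have t1 := norm_add_le (q j) ((V j : ℂ) * ζ)
    have t2 := norm_sub_le (q j + (V j : ℂ) * ζ) ((V j : ℂ) * ζ)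
    rw [add_sub_cancel_right] at t2
    refine ⟨by linarith, by linarith, ?_⟩
    rw [Complex.add_re, Complex.re_ofReal_mul]
    have hqre : (q j).re = (1 / 2) ^ j := by
      unfold q
      exact Complex.ofReal_re _
    rw [hqre, hV]
    have := (abs_le.1 h1).1
    nlinarith
  refine ⟨fun z => r (c (s z)), rb.comp (cb.comp sb), rl.comp (cl.comp sl), ?_, ?_, ?_, ?_⟩
  · intro z hz
    show r (c (s z)) = z
    rw [s1 z (by linarith), c1 z hz, r1 z (by linarith)]
  · intro j hj1 hjk ζ h1 h2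
    show r (c (s _)) = _
    obtain ⟨d1, d2, d3⟩ := hdoor j ζ h1 h2
    have h3 : 2 * K ≤ (1 / 2) ^ j := by
      have : K ≤ (1 / 2) ^ (j + 1) := pow_le_pow_of_le_one (by norm_num) (by norm_num) hjk
      rw [pow_succ] at this
      linarith
    rw [s1 _ (by linarith), c2 _ d3, r1 _ (by linarith)]
  · intro j hkj ζ h1 h2
    show r (c (s _)) = _
    obtain ⟨d1, d2, d3⟩ := hdoor j ζ h1 h2
    have h3 : (1 / 2 : ℝ) ^ j ≤ K := pow_le_pow_of_le_one (by norm_num) (by norm_num) hkj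
    rw [s2 _ (by linarith)]
    have h4 : (q j + (V j : ℂ) * ζ) / 2 = q (j + 1) + (V (j + 1) : ℂ) * ζ := by
      unfold q V
      push_cast
      rw [pow_succ]
      ring
    rw [h4]
    obtain ⟨d1', d2', d3'⟩ := hdoor (j + 1) ζ h1 h2
    rw [c2 _ d3', r2 _ ?_]
    rw [pow_succ] at d2'
    linarith
  · intro ζ h1 h2
    show r (c (s _)) = _
    have hζ := hsq ζ h1 h2
    have hV0 : V 0 = 1 / 32 := by
      unfold V
      norm_num
    have h3 : ‖(V 0 : ℂ) * ζ‖ ≤ 1 / 16 := by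
      rw [norm_mul, Complex.norm_real, Real.norm_eq_abs, hV0, abs_of_pos (by norm_num)]
      linarith
    have t1 := norm_add_le (-1 : ℂ) ((V 0 : ℂ) * ζ)
    have t2 := norm_sub_le (-1 + (V 0 : ℂ) * ζ) ((V 0 : ℂ) * ζ)
    rw [add_sub_cancel_right] at t2
    rw [norm_neg, norm_one] at t1 t2
    have h4 : ‖-1 + (V 0 : ℂ) * ζ + 1‖ ≤ 1 / 5 := by
      have : -1 + (V 0 : ℂ) * ζ + 1 = (V 0 : ℂ) * ζ := by ring
      rw [this]
      linarith
    rw [s1 _ (by linarith), c3 _ h4]
    have h5 : ‖(K : ℂ) * (-1 + (V 0 : ℂ) * ζ)‖ = K * ‖-1 + (V 0 : ℂ) * ζ‖ :=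
      norm_t_mul K hK0.le _
    rw [r3 _ (by rw [h5]; nlinarith) (by rw [h5]; nlinarith)]
    unfold q V
    rw [hK]
    push_cast
    ring

end Run7.h11.SC
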