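import Pool.Agent.Run7.h242.SC.Iface

set_option autoImplicit false

namespace Run7.h11.SC

open Run7.h242.SC
open scoped NNReal

/-- maps which preserve the rays from the origin -/
lemma ray_bij (G : ℂ → ℝ) (hpos : ∀ z, 0 < G z)
    (hinj : ∀ w : ℂ, w ≠ 0 → ∀ t : ℝ, 0 < t → t * G ((t : ℂ) * w) = G w → t = 1)
    (hsur : ∀ w : ℂ, w ≠ 0 → ∃ t : ℝ, 0 < t ∧ t * G ((t : ℂ) * w) = 1) :
    Function.Bijective (fun z : ℂ => (G z : ℂ) * z) := by
  constructor
  · intro z w h
    simp only at h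
    have hz' : (G z : ℂ) ≠ 0 := by exact_mod_cast (hpos z).ne'
    have hw' : (G w : ℂ) ≠ 0 := by exact_mod_cast (hpos w).ne'
    by_cases hz : z = 0
    · rw [hz, mul_zero] at h
      rcases mul_eq_zero.1 h.symm with h1 | h1
      · exact absurd h1 hw'
      · rw [hz, h1]
    · have hw : w ≠ 0 := by
        rintro rfl
        rw [mul_zero] at h
        rcases mul_eq_zero.1 h with h1 | h1
        · exact hz' h1
        · exact hz h1
      set t : ℝ := G z / G w with ht
      have ht0 : 0 < t := div_pos (hpos z) (hpos w)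
      have hwz : w = (t : ℂ) * z := by
        rw [ht]
        push_cast
        field_simp
        linear_combination -h
      have h1 : t * G ((t : ℂ) * z) = G z := by
        rw [← hwz, ht, div_mul_cancel₀ _ (hpos w).ne']
      have h2 := hinj z hz t ht0 h1
      rw [hwz, h2]
      simp
  · intro w
    by_cases hw : w = 0
    · exact ⟨0, by simp [hw]⟩
    · obtain ⟨t, -, ht⟩ := hsur w hw
      refine ⟨(t : ℂ) * w, ?_⟩
      simp only
      rw [← mul_assoc]
      have : (G ((t : ℂ) * w) : ℂ) * (t : ℂ) = 1 := by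
        rw [← Complex.ofReal_mul, mul_comm, ht, Complex.ofReal_one]
      rw [this, one_mul]

lemma clamp_lip (a b x y : ℝ) : |max a (min b x) - max a (min b y)| ≤ |x - y| := by
  have h1 := abs_max_sub_max_le_max a (min b x) a (min b y)
  have h2 := abs_min_sub_min_le_max b x b y
  rw [sub_self, abs_zero] at h1 h2
  have h3 : max 0 |x - y| = |x - y| := max_eq_right (abs_nonneg _)
  have h4 : max 0 |min b x - min b y| = |min b x - min b y| := max_eq_right (abs_nonneg _)
  rw [h3] at h2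
  rw [h4] at h1
  exact h1.trans h2

lemma norm_t_mul (t : ℝ) (ht : 0 ≤ t) (w : ℂ) : ‖(t : ℂ) * w‖ = t * ‖w‖ := by
  rw [norm_mul, Complex.norm_real, Real.norm_eq_abs, abs_of_nonneg ht]

/-- a Lipschitz criterion: it is enough to look at `‖w‖ ≤ ‖z‖` -/
lemma lip_of {C : ℝ≥0} {s : ℂ → ℂ} (h : ∀ z w : ℂ, ‖w‖ ≤ ‖z‖ → ‖s z - s w‖ ≤ C * ‖z - w‖) :
    LipschitzWith C s := by
  apply LipschitzWith.of_dist_le_mul
  intro z w
  rw [dist_eq_norm, dist_eq_norm]
  rcases le_total ‖w‖ ‖z‖ with h1 | h1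
  · exact h z w h1
  · have := h w z h1
    rwa [norm_sub_rev, norm_sub_rev w z] at this

theorem t_PS : S_PS := by
  refine ⟨3, fun K hK0 hK1 => ?_⟩
  set m : ℝ → ℝ := fun r => max (1 / 2) (min 1 (1 / 2 + (r - 5 * K / 4) / K)) with hm
  have hm1 : ∀ r, 1 / 2 ≤ m r := fun r => le_max_left _ _
  have hm2 : ∀ r, m r ≤ 1 := fun r => max_le (by norm_num) (min_le_left _ _)
  have hmlip : ∀ r r', |m r - m r'| ≤ |r - r'| / K := by
    intro r r'
    refine (clamp_lip _ _ _ _).trans ?_
    rw [← abs_of_pos hK0, ← abs_div, abs_of_pos hK0]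
    apply le_of_eq
    congr 1
    ring
  have hmmono : ∀ r r', r ≤ r' → m r ≤ m r' := by
    intro r r' h
    have h1 : 1 / 2 + (r - 5 * K / 4) / K ≤ 1 / 2 + (r' - 5 * K / 4) / K := by
      have := (div_le_div_iff_of_pos_right hK0).2 (show r - 5 * K / 4 ≤ r' - 5 * K / 4 by linarith)
      linarith
    exact max_le_max le_rfl (min_le_min le_rfl h1)
  have hmhi : ∀ r, 7 * K / 4 ≤ r → m r = 1 := by
    intro r h
    have h1 : 1 ≤ 1 / 2 + (r - 5 * K / 4) / K := by
      have : 1 / 2 ≤ (r - 5 * K / 4) / K := by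
        rw [le_div_iff₀ hK0]
        linarith
      linarith
    rw [hm]
    simp only
    rw [min_eq_left h1]
    norm_num
  have hmlo : ∀ r, r ≤ 5 * K / 4 → m r = 1 / 2 := by
    intro r h
    have h1 : 1 / 2 + (r - 5 * K / 4) / K ≤ 1 / 2 := by
      have : (r - 5 * K / 4) / K ≤ 0 := div_nonpos_of_nonpos_of_nonneg (by linarith) hK0.le
      linarith
    rw [hm]
    simp only
    exact max_eq_left ((min_le_right _ _).trans h1)
  have hmc : Continuous m := by
    rw [hm]
    fun_prop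
  refine ⟨fun z => ((m ‖z‖ : ℝ) : ℂ) * z, ?_, ?_, ?_, ?_⟩
  · refine ray_bij (fun z => m ‖z‖) (fun z => lt_of_lt_of_le (by norm_num) (hm1 _)) ?_ ?_
    · intro w hw t ht h
      rw [norm_t_mul t ht.le] at h
      have hw0 : 0 < ‖w‖ := norm_pos_iff.2 hw
      rcases lt_trichotomy t 1 with h1 | h1 | h1
      · exfalso
        have h2 : m (t * ‖w‖) ≤ m ‖w‖ := hmmono _ _ (by nlinarith)
        have h3 := hm1 (t * ‖w‖)
        nlinarith
      · exact h1
      · exfalso
        have h2 : m ‖w‖ ≤ m (t * ‖w‖) := hmmono _ _ (by nlinarith)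
        have h3 := hm1 ‖w‖
        nlinarith
    · intro w hw
      have hcont : ContinuousOn (fun t : ℝ => t * m (t * ‖w‖)) (Set.Icc 0 2) := by
        apply Continuous.continuousOn
        fun_prop
      have h1 := intermediate_value_Icc (show (0 : ℝ) ≤ 2 by norm_num) hcont
      have h2 : (1 : ℝ) ∈ Set.Icc (0 * m (0 * ‖w‖)) (2 * m (2 * ‖w‖)) := by
        refine ⟨by norm_num, ?_⟩
        have := hm1 (2 * ‖w‖)
        linarith
      obtain ⟨t, ht, ht2⟩ := h1 h2
      simp only at ht2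
      have ht0 : 0 < t := by
        rcases ht.1.lt_or_eq with h3 | h3
        · exact h3
        · rw [← h3] at ht2
          norm_num at ht2
      refine ⟨t, ht0, ?_⟩
      rw [norm_t_mul t ht0.le]
      exact ht2
  · apply lip_of
    intro z w hwz
    have e : ((m ‖z‖ : ℝ) : ℂ) * z - ((m ‖w‖ : ℝ) : ℂ) * w =
        ((m ‖z‖ : ℝ) : ℂ) * (z - w) + ((m ‖z‖ - m ‖w‖ : ℝ) : ℂ) * w := by
      push_cast
      ring
    rw [e]
    refine (norm_add_le _ _).trans ?_
    rw [norm_mul, norm_mul, Complex.norm_real, Complex.norm_real, Real.norm_eq_abs,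
      Real.norm_eq_abs]
    have h1 : |m ‖z‖| ≤ 1 := by
      rw [abs_of_nonneg (by linarith [hm1 ‖z‖])]
      exact hm2 _
    have h2 : |m ‖z‖ - m ‖w‖| * ‖w‖ ≤ 7 / 4 * ‖z - w‖ := by
      rcases le_total (7 * K / 4) ‖w‖ with h3 | h3
      · rw [hmhi _ h3, hmhi _ (h3.trans hwz)]
        simp
      · calc |m ‖z‖ - m ‖w‖| * ‖w‖ ≤ (|‖z‖ - ‖w‖| / K) * (7 * K / 4) :=
              mul_le_mul (hmlip _ _) h3 (norm_nonneg _) (by positivity)
          _ = 7 / 4 * |‖z‖ - ‖w‖| := by field_simp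
          _ ≤ 7 / 4 * ‖z - w‖ :=
              mul_le_mul_of_nonneg_left (abs_norm_sub_norm_le z w) (by norm_num)
    have h3 : |m ‖z‖| * ‖z - w‖ ≤ 1 * ‖z - w‖ := mul_le_mul_of_nonneg_right h1 (norm_nonneg _)
    have h4 : ((3 : ℝ≥0) : ℝ) = 3 := rfl
    rw [h4]
    have := norm_nonneg (z - w)
    linarith
  · intro z hz
    simp only
    rw [hmhi _ hz]
    simp
  · intro z hz
    simp only
    rw [hmlo _ hz]
    push_cast
    ring

theorem t_PR : S_PR := by
  refine ⟨33, fun K hK0 hK1 => ?_⟩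
  set χ : ℝ → ℝ := fun r => max 0 (min 1 (1 + 8 * (1 / 8 - |r / K - 1|))) with hχ
  have hlip : ∀ r r', |χ r - χ r'| ≤ 8 * |r - r'| / K := by
    intro r r'
    refine (clamp_lip _ _ _ _).trans ?_
    have e1 : 1 + 8 * (1 / 8 - |r / K - 1|) - (1 + 8 * (1 / 8 - |r' / K - 1|)) =
        8 * (|r' / K - 1| - |r / K - 1|) := by ring
    rw [e1, abs_mul, abs_of_pos (by norm_num : (0 : ℝ) < 8), mul_div_assoc]
    apply mul_le_mul_of_nonneg_left _ (by norm_num)
    refine (abs_abs_sub_abs_le _ _).trans ?_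
    have e2 : r' / K - 1 - (r / K - 1) = -((r - r') / K) := by ring
    rw [e2, abs_neg, abs_div, abs_of_pos hK0]
  have hhi : ∀ r, 5 * K / 4 ≤ r → χ r = 0 := by
    intro r h
    rw [hχ]
    simp only
    apply max_eq_left
    refine (min_le_right _ _).trans ?_
    have h1 : 5 / 4 ≤ r / K := by
      rw [le_div_iff₀ hK0]
      linarith
    rw [abs_of_nonneg (by linarith)]
    linarith
  have hlo : ∀ r, r ≤ 3 * K / 4 → χ r = 0 := by
    intro r h
    rw [hχ]
    simp only
    apply max_eq_left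
    refine (min_le_right _ _).trans ?_
    have h1 : r / K ≤ 3 / 4 := by
      rw [div_le_iff₀ hK0]
      linarith
    rw [abs_of_nonpos (by linarith)]
    linarith
  have hmid : ∀ r, 7 * K / 8 ≤ r → r ≤ 9 * K / 8 → χ r = 1 := by
    intro r h h'
    rw [hχ]
    simp only
    have h1 : 7 / 8 ≤ r / K := by
      rw [le_div_iff₀ hK0]
      linarith
    have h2 : r / K ≤ 9 / 8 := by
      rw [div_le_iff₀ hK0]
      linarith
    have h3 : |r / K - 1| ≤ 1 / 8 := by
      rw [abs_le]
      constructor <;> linarith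
    rw [min_eq_left (by linarith)]
    norm_num
  set e : ℝ → ℂ := fun a => Complex.exp ((a : ℂ) * Complex.I) with he
  have hen : ∀ a, ‖e a‖ = 1 := fun a => Complex.norm_exp_ofReal_mul_I a
  have headd : ∀ a b, e a * e b = e (a + b) := by
    intro a b
    rw [he]
    simp only
    rw [← Complex.exp_add]
    congr 1
    push_cast
    ring
  have he0 : e 0 = 1 := by simp [he]
  have helip : ∀ a b, ‖e a - e b‖ ≤ |a - b| := by
    intro a b
    have h1 : e a - e b = e b * (e (a - b) - 1) := by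
      rw [mul_sub, headd, mul_one]
      congr 2
      ring
    rw [h1, norm_mul, hen, one_mul]
    have h2 := Real.norm_exp_I_mul_ofReal_sub_one_le (x := a - b)
    rw [Real.norm_eq_abs] at h2
    have h3 : e (a - b) = Complex.exp (Complex.I * ((a - b : ℝ) : ℂ)) := by
      rw [he]
      simp only
      rw [mul_comm]
    rw [h3]
    exact h2
  have hnorm : ∀ z : ℂ, ‖e (Real.pi * χ ‖z‖) * z‖ = ‖z‖ := fun z => by
    rw [norm_mul, hen, one_mul]
  have hnorm' : ∀ z : ℂ, ‖e (-(Real.pi * χ ‖z‖)) * z‖ = ‖z‖ := fun z => by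
    rw [norm_mul, hen, one_mul]
  refine ⟨fun z => e (Real.pi * χ ‖z‖) * z, ?_, ?_, ?_, ?_, ?_⟩
  · refine Function.bijective_iff_has_inverse.2 ⟨fun z => e (-(Real.pi * χ ‖z‖)) * z, ?_, ?_⟩
    · intro z
      simp only
      rw [hnorm, ← mul_assoc, headd, neg_add_cancel, he0, one_mul]
    · intro z
      simp only
      rw [hnorm', ← mul_assoc, headd, add_neg_cancel, he0, one_mul]
  · apply lip_of
    intro z w hwz
    have e1 : e (Real.pi * χ ‖z‖) * z - e (Real.pi * χ ‖w‖) * w =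
        e (Real.pi * χ ‖z‖) * (z - w) + (e (Real.pi * χ ‖z‖) - e (Real.pi * χ ‖w‖)) * w := by
      ring
    rw [e1]
    refine (norm_add_le _ _).trans ?_
    rw [norm_mul, norm_mul, hen, one_mul]
    have h2 : ‖e (Real.pi * χ ‖z‖) - e (Real.pi * χ ‖w‖)‖ * ‖w‖ ≤ 32 * ‖z - w‖ := by
      rcases le_total (5 * K / 4) ‖w‖ with h3 | h3
      · rw [hhi _ h3, hhi _ (h3.trans hwz)]
        simp
      · have h4 : ‖e (Real.pi * χ ‖z‖) - e (Real.pi * χ ‖w‖)‖ ≤
            3.2 * (8 * |‖z‖ - ‖w‖| / K) := by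
          refine (helip _ _).trans ?_
          rw [← mul_sub, abs_mul, abs_of_pos Real.pi_pos]
          exact mul_le_mul (Real.pi_lt_d2.le.trans (by norm_num)) (hlip _ _) (abs_nonneg _)
            (by norm_num)
        calc ‖e (Real.pi * χ ‖z‖) - e (Real.pi * χ ‖w‖)‖ * ‖w‖
            ≤ (3.2 * (8 * |‖z‖ - ‖w‖| / K)) * (5 * K / 4) :=
              mul_le_mul h4 h3 (norm_nonneg _) (by positivity)
          _ = 32 * |‖z‖ - ‖w‖| := by
              field_simp
              ring
          _ ≤ 32 * ‖z - w‖ :=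
              mul_le_mul_of_nonneg_left (abs_norm_sub_norm_le z w) (by norm_num)
    have h4 : ((33 : ℝ≥0) : ℝ) = 33 := rfl
    rw [h4]
    linarith
  · intro z hz
    simp only
    rw [hhi _ hz, mul_zero, he0, one_mul]
  · intro z hz
    simp only
    rw [hlo _ hz, mul_zero, he0, one_mul]
  · intro z h1 h2
    simp only
    rw [hmid _ h1 h2, mul_one]
    have : e Real.pi = -1 := Complex.exp_pi_mul_I
    rw [this]
    ring

end Run7.h11.SC
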